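import Mathlib
import Pool.Agent.Helper90.PulseScaled
import Pool.Agent.Helper90.PulseAlg

/-!
Problem MP_b6986b_an, Q1, in the negative: the gene-drive system has nontrivial traveling waves
which are not monotonic.
-/

open Filter Topology

namespace Pool.Agent.Results.MP_b6986b_an.NonMonotonePulse

/-- `(p, n)` solves the gene-drive reaction-diffusion system with parameters `s, r` at every
`(t, x)`. -/
def SolvesSystem (s r : ℝ) (p n : ℝ → ℝ → ℝ) : Prop :=
  ∀ t x : ℝ,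
    deriv (fun τ => p τ x) t - deriv (fun y => deriv (fun z => p t z) y) x
        - 2 * deriv (fun y => Real.log (n t y)) x * deriv (fun y => p t y) x
      = (r * (1 - n t x) + 1) * s * p t x * (1 - p t x) * (p t x - (2 * s - 1) / s) ∧
    deriv (fun τ => n τ x) t - deriv (fun y => deriv (fun z => n t z) y) x
      = n t x * ((1 - s + s * (1 - p t x) ^ 2) * (r * (1 - n t x) + 1) - 1)

/-- `(P, N)` is the profile of a traveling wave of speed `c`: a bounded classical solution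
`(p, n)(t, x) = (P, N)(x - c t)` with `P ≥ 0`, `N > 0` and `(P, N)(ξ) → (0, 1)` as `ξ → -∞`. -/
structure IsTravelingWave (s r c : ℝ) (P N : ℝ → ℝ) : Prop where
  contDiff_P : ContDiff ℝ 2 P
  contDiff_N : ContDiff ℝ 2 N
  bounded_P : ∃ M : ℝ, ∀ ξ, |P ξ| ≤ M
  bounded_N : ∃ M : ℝ, ∀ ξ, |N ξ| ≤ M
  P_nonneg : ∀ ξ, 0 ≤ P ξ
  N_pos : ∀ ξ, 0 < N ξ
  tendsto_P : Tendsto P atBot (𝓝 0)
  tendsto_N : Tendsto N atBot (𝓝 1)
  solves : SolvesSystem s r (fun t x => P (x - c * t)) (fun t x => N (x - c * t))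

lemma contDiff_two_of {f f' f'' : ℝ → ℝ} (h1 : ∀ y, HasDerivAt f (f' y) y)
    (h2 : ∀ y, HasDerivAt f' (f'' y) y) (hc : Continuous f'') : ContDiff ℝ 2 f := by
  have e1 : deriv f = f' := funext fun y => (h1 y).deriv
  have e2 : deriv f' = f'' := funext fun y => (h2 y).deriv
  have : (2 : WithTop ℕ∞) = 1 + 1 := by norm_num
  rw [this, contDiff_succ_iff_deriv]
  refine ⟨fun y => (h1 y).differentiableAt, by simp, ?_⟩
  rw [e1, contDiff_one_iff_deriv]
  refine ⟨fun y => (h2 y).differentiableAt, ?_⟩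
  rw [e2]
  exact hc

open Pool.Agent.Helper90.Pulse in
/-- **Failure of monotonicity.** For every growth rate `r > 0` and every fitness cost `s` slightly
above `1/2` there is a nontrivial traveling wave (of speed `0`) for which neither `P` is
nondecreasing nor `N` is nonincreasing. -/
theorem result (r : ℝ) (hr : 0 < r) : ∃ s₀ : ℝ, 1 / 2 < s₀ ∧ s₀ ≤ 1 ∧
    ∀ s : ℝ, 1 / 2 < s → s < s₀ → ∃ P N : ℝ → ℝ, IsTravelingWave s r 0 P N ∧
      (∃ ξ, P ξ ≠ 0) ∧ ¬ Monotone P ∧ ¬ Antitone N := by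
  obtain ⟨θ₀, hθ₀, hθ₀1, hθ₀r, H⟩ := exists_scaled_nonneg hr
  refine ⟨1 / (2 - θ₀), ?_, ?_, fun s hs hs0 => ?_⟩
  · rw [lt_div_iff₀ (by linarith)]; linarith
  · rw [div_le_one (by linarith)]; linarith
  have hspos : 0 < s := by linarith
  set θ : ℝ := (2 * s - 1) / s with hθdef
  have hθpos : 0 < θ := div_pos (by linarith) hspos
  have hθ2 : 2 - θ = s⁻¹ := by
    rw [hθdef]; field_simp; ring
  have hθlt : θ < θ₀ := by
    rw [lt_div_iff₀ (by linarith)] at hs0
    have h1 : 2 - θ₀ < s⁻¹ := by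
      rw [lt_inv_comm₀ (by linarith) hspos, ← one_div, lt_div_iff₀ (by linarith)]
      exact hs0
    linarith
  have hsθ : (2 - θ)⁻¹ = s := by rw [hθ2, inv_inv]
  have hs' : s * (2 - θ) = 1 := by rw [hθ2]; field_simp
  have hθ1 : θ ≤ 1 := hθlt.le.trans hθ₀1
  obtain ⟨q, q', e, e', dq, de, dq', de', evq, eve, bq, be, hq0⟩ := H θ hθpos hθlt
  -- the box
  have bq2 : ∀ y, |q y| ≤ 2 := fun y => by
    have h1 := bq y
    have h2 : Real.exp (-|y|) ≤ 1 := Real.exp_le_one_iff.2 (by simp)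
    have h3 := p0_le y
    have h4 := (p0_pos y).le
    have h5 := abs_add_le (q y - p0 y) (p0 y)
    rw [sub_add_cancel, abs_of_nonneg h4] at h5
    linarith
  have be1 : ∀ y, |e y| ≤ 1 := fun y => by
    have h1 := be y
    have h2 : Real.exp (-|y|) ≤ 1 := Real.exp_le_one_iff.2 (by simp)
    linarith
  have hD : ∀ y, 1 / 2 ≤ DD r θ (q y) (e y) := fun y =>
    DD_ge hr hθpos.le (hθlt.le.trans hθ₀r) (bq2 y) (be1 y)
  have cq : Continuous q := continuous_iff_continuousAt.2 fun y => (dq y).continuousAt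
  have ce : Continuous e := continuous_iff_continuousAt.2 fun y => (de y).continuousAt
  have cm : Continuous fun y => mm r θ (q y) (e y) := by unfold mm; fun_prop
  have cD : Continuous fun y => DD r θ (q y) (e y) := by
    unfold DD; exact continuous_const.add (continuous_const.mul (continuous_const.mul cm))
  have cDi : Continuous fun y => (DD r θ (q y) (e y))⁻¹ :=
    cD.inv₀ fun y => by have := hD y; linarith
  have cA : Continuous fun y => AA r θ (q y) (e y) := by unfold AA; fun_prop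
  have cQ : Continuous fun y => QQ r θ (q y) (e y) := by unfold QQ RR1; fun_prop
  have cH : Continuous fun y => HH r θ (q y) (e y) := by unfold HH; fun_prop
  have cR : Continuous fun y => 8 * r / θ * e y - 8 * r * RR2 r θ (q y) (e y) := by
    unfold RR2; fun_prop
  have smq : ContDiff ℝ 2 q := contDiff_two_of dq dq' cQ
  have sme : ContDiff ℝ 2 e := contDiff_two_of de de' cR
  -- unscaled functions
  set a : ℝ := Real.sqrt (θ / 8) with ha
  have ha2 : a ^ 2 = θ / 8 := Real.sq_sqrt (by positivity)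
  have hapos : 0 < a := Real.sqrt_pos.2 (by positivity)
  set N : ℝ → ℝ := fun ξ => DD r θ (q (a * ξ)) (e (a * ξ)) with hN
  set v : ℝ → ℝ := fun ξ => θ * q (a * ξ) with hv
  set P : ℝ → ℝ := fun ξ => v ξ / N ξ with hP
  have hNpos : ∀ ξ, 0 < N ξ := fun ξ => by have := hD (a * ξ); simp only [hN]; linarith
  have hNne : ∀ ξ, N ξ ≠ 0 := fun ξ => (hNpos ξ).ne'
  set N' : ℝ → ℝ := fun ξ => -(θ * a * (q' (a * ξ) + e' (a * ξ)) / r) with hN'
  set v' : ℝ → ℝ := fun ξ => θ * a * q' (a * ξ) with hv'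
  have hmul : ∀ ξ : ℝ, HasDerivAt (fun x : ℝ => a * x) a ξ := fun ξ => by
    simpa using (hasDerivAt_id ξ).const_mul a
  have dv : ∀ ξ, HasDerivAt v (v' ξ) ξ := fun ξ => by
    have := ((dq (a * ξ)).comp ξ (hmul ξ)).const_mul θ
    refine this.congr_deriv ?_
    simp only [hv']; ring
  have dN : ∀ ξ, HasDerivAt N (N' ξ) ξ := fun ξ => by
    have h1 := (dq (a * ξ)).comp ξ (hmul ξ)
    have h2 := (de (a * ξ)).comp ξ (hmul ξ)
    have h3 := ((((h1.add h2).mul_const r⁻¹).const_mul θ).const_mul (-1)).const_add 1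
    refine h3.congr_deriv ?_
    simp only [hN']
    field_simp
  set v'' : ℝ → ℝ := fun ξ => θ * a * (QQ r θ (q (a * ξ)) (e (a * ξ)) * a) with hv''
  set N'' : ℝ → ℝ := fun ξ => -(θ * a * ((QQ r θ (q (a * ξ)) (e (a * ξ)) * a
    + (8 * r / θ * e (a * ξ) - 8 * r * RR2 r θ (q (a * ξ)) (e (a * ξ))) * a)) / r) with hN''
  have dv' : ∀ ξ, HasDerivAt v' (v'' ξ) ξ := fun ξ =>
    ((dq' (a * ξ)).comp ξ (hmul ξ)).const_mul (θ * a)
  have dN' : ∀ ξ, HasDerivAt N' (N'' ξ) ξ := fun ξ => by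
    have h1 := (dq' (a * ξ)).comp ξ (hmul ξ)
    have h2 := (de' (a * ξ)).comp ξ (hmul ξ)
    exact ((((h1.add h2).const_mul (θ * a)).div_const r).neg)
  -- the equations
  have hDm : ∀ ξ, N ξ = 1 - θ * mm r θ (q (a * ξ)) (e (a * ξ)) := fun ξ => by
    simp only [hN, DD]; ring
  have hrm : ∀ ξ, r * mm r θ (q (a * ξ)) (e (a * ξ)) = q (a * ξ) + e (a * ξ) := fun ξ => by
    simp only [mm]; field_simp
  have hPe : ∀ ξ, P ξ = θ * q (a * ξ) / N ξ := fun ξ => rfl
  have eqN : ∀ ξ, N'' ξ = -(N ξ * ((1 - s + s * (1 - P ξ) ^ 2) * (r * (1 - N ξ) + 1) - 1)) := by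
    intro ξ
    have e1 : N'' ξ = -θ * e (a * ξ) + θ ^ 2 * HH r θ (q (a * ξ)) (e (a * ξ)) := by
      simp only [hN'', RR2]
      have : θ * a * ((QQ r θ (q (a * ξ)) (e (a * ξ)) * a
        + (8 * r / θ * e (a * ξ) - 8 * r * ((8 * r)⁻¹ * QQ r θ (q (a * ξ)) (e (a * ξ))
          + HH r θ (q (a * ξ)) (e (a * ξ)))) * a)) / r
        = a ^ 2 * (θ * (8 / θ * e (a * ξ) - 8 * HH r θ (q (a * ξ)) (e (a * ξ)))) := by
        field_simp
        ring
      rw [this, ha2]
      field_simp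
      ring
    have e2 : HH r θ (q (a * ξ)) (e (a * ξ)) = s * q (a * ξ)
        + 2 * (s * (r * (q (a * ξ) * mm r θ (q (a * ξ)) (e (a * ξ)))))
        - s * (q (a * ξ) ^ 2 * ((1 + r * (θ * mm r θ (q (a * ξ)) (e (a * ξ)))) / N ξ))
        + r * mm r θ (q (a * ξ)) (e (a * ξ)) ^ 2 := by
      simp only [HH, hsθ, hN]
      ring
    have e3 : -θ * e (a * ξ) = -θ * (r * mm r θ (q (a * ξ)) (e (a * ξ)) - q (a * ξ)) := by
      rw [hrm]; ring
    rw [e1, e2, e3, hPe]
    exact algN r θ s _ _ _ (hNne ξ) hs' (hDm ξ)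
  have eqv : ∀ ξ, v'' ξ = -(v ξ * ((1 - s) * (2 - P ξ) * (r * (1 - N ξ) + 1) - 1)) := by
    intro ξ
    have e1 : v'' ξ = θ ^ 2 / 8 * QQ r θ (q (a * ξ)) (e (a * ξ)) := by
      simp only [hv'']
      rw [show θ * a * (QQ r θ (q (a * ξ)) (e (a * ξ)) * a)
        = a ^ 2 * (θ * QQ r θ (q (a * ξ)) (e (a * ξ))) by ring, ha2]
      ring
    rw [e1, hPe, QQ, RR1, hsθ]
    exact algV r θ s _ _ _ _ _ (hNne ξ) hs' (hDm ξ) (hrm ξ) rfl
  -- derivatives of `P`
  have dP : ∀ ξ, HasDerivAt P ((v' ξ * N ξ - v ξ * N' ξ) / N ξ ^ 2) ξ := fun ξ =>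
    (dv ξ).div (dN ξ) (hNne ξ)
  have dP' : ∀ ξ, HasDerivAt (fun ξ => (v' ξ * N ξ - v ξ * N' ξ) / N ξ ^ 2)
      (((v'' ξ * N ξ - v ξ * N'' ξ) * N ξ ^ 2
        - (v' ξ * N ξ - v ξ * N' ξ) * (2 * N ξ * N' ξ)) / (N ξ ^ 2) ^ 2) ξ := fun ξ => by
    have h1 := ((dv' ξ).mul (dN ξ)).sub ((dv ξ).mul (dN' ξ))
    have h2 := (dN ξ).pow 2
    refine (h1.div h2 (pow_ne_zero 2 (hNne ξ))).congr_deriv ?_
    simp only [Pi.sub_apply, Pi.mul_apply, Pi.pow_apply]
    congr 1
    push_cast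
    ring
  have dlog : ∀ ξ, HasDerivAt (fun ξ => Real.log (N ξ)) (N' ξ / N ξ) ξ := fun ξ =>
    (dN ξ).log (hNne ξ)
  have e1 : deriv P = fun ξ => (v' ξ * N ξ - v ξ * N' ξ) / N ξ ^ 2 := funext fun ξ => (dP ξ).deriv
  have e2 : deriv N = N' := funext fun ξ => (dN ξ).deriv
  -- smoothness
  have smN : ContDiff ℝ 2 N := by
    have h1 : ContDiff ℝ 2 (fun ξ : ℝ => q (a * ξ)) :=
      smq.comp (contDiff_const.mul contDiff_id)
    have h2 : ContDiff ℝ 2 (fun ξ : ℝ => e (a * ξ)) :=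
      sme.comp (contDiff_const.mul contDiff_id)
    simp only [hN, DD, mm]
    exact contDiff_const.add (contDiff_const.mul (contDiff_const.mul
      ((h1.add h2).mul contDiff_const)))
  have smv : ContDiff ℝ 2 v := by
    have h1 : ContDiff ℝ 2 (fun ξ : ℝ => q (a * ξ)) :=
      smq.comp (contDiff_const.mul contDiff_id)
    exact contDiff_const.mul h1
  have smP : ContDiff ℝ 2 P := smv.div smN hNne
  -- decay
  have hdec : ∀ y, |q y| ≤ 7 * Real.exp (-|y|) := fun y => by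
    have h1 := bq y
    have h3 := p0_le_exp1 y
    have h4 := (p0_pos y).le
    have h5 := abs_add_le (q y - p0 y) (p0 y)
    rw [sub_add_cancel, abs_of_nonneg h4] at h5
    have h6 := Real.exp_pos (-|y|)
    linarith
  have hdece : ∀ y, |e y| ≤ 7 * Real.exp (-|y|) := fun y => by
    have h1 := be y
    have h6 := Real.exp_pos (-|y|)
    linarith
  have hgen : ∀ (f : ℝ → ℝ) (l : Filter ℝ), (∀ y, |f y| ≤ 7 * Real.exp (-|y|)) →
      Tendsto (fun ξ : ℝ => |a * ξ|) l atTop → Tendsto (fun ξ => f (a * ξ)) l (𝓝 0) := by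
    intro f l hf hl
    have h5 : Tendsto (fun y : ℝ => 7 * Real.exp (-y)) atTop (𝓝 0) := by
      have := (Real.tendsto_exp_neg_atTop_nhds_zero).const_mul 7
      simpa using this
    refine squeeze_zero_norm (fun ξ => ?_) (h5.comp hl)
    rw [Real.norm_eq_abs]
    exact hf _
  have labs : ∀ l : Filter ℝ, Tendsto (fun ξ : ℝ => |ξ|) l atTop →
      Tendsto (fun ξ : ℝ => |a * ξ|) l atTop := by
    intro l hl
    simp only [abs_mul, abs_of_pos hapos]
    exact hl.const_mul_atTop hapos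
  have limN : ∀ l : Filter ℝ, Tendsto (fun ξ : ℝ => |ξ|) l atTop → Tendsto N l (𝓝 1) := by
    intro l hl
    have h1 := hgen q l hdec (labs l hl)
    have h2 := hgen e l hdece (labs l hl)
    have h3 := ((((h1.add h2).mul_const r⁻¹).const_mul θ).const_mul (-1)).const_add 1
    simpa [hN, DD, mm] using h3
  have limP : ∀ l : Filter ℝ, Tendsto (fun ξ : ℝ => |ξ|) l atTop → Tendsto P l (𝓝 0) := by
    intro l hl
    have h1 := (hgen q l hdec (labs l hl)).const_mul θ
    have h2 := h1.div (limN l hl) one_ne_zero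
    rw [mul_zero, zero_div] at h2
    exact h2
  -- the center
  have hq00 : 0 < q 0 := by
    have h1 := bq 0
    have h2 : p0 0 = 3 / 2 := by simp [p0]
    rw [h2, abs_le] at h1
    simp at h1
    linarith [h1.1]
  have he00 : |e 0| ≤ 1 / 4800 := by
    have := be 0
    simpa using this
  have hq01 : 1 ≤ q 0 := by
    have h1 := bq 0
    have h2 : p0 0 = 3 / 2 := by simp [p0]
    rw [h2, abs_le] at h1
    simp at h1
    linarith [h1.1]
  have hP0 : 0 < P 0 := by
    simp only [hP, hv, mul_zero]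
    exact div_pos (mul_pos hθpos hq00) (hNpos 0)
  have hN0 : N 0 < 1 := by
    rw [hDm 0]
    simp only [mul_zero, mm]
    have h1 : 0 < (q 0 + e 0) * r⁻¹ := by
      apply mul_pos _ (inv_pos.2 hr)
      rw [abs_le] at he00
      linarith [he00.1]
    have := mul_pos hθpos h1
    linarith
  refine ⟨P, N, ⟨smP, smN, ⟨4, fun ξ => ?_⟩, ⟨1 + θ * (3 * r⁻¹), fun ξ => ?_⟩, fun ξ => ?_, hNpos,
    limP _ tendsto_abs_atBot_atTop, limN _ tendsto_abs_atBot_atTop, ?_⟩, ⟨0, hP0.ne'⟩, ?_, ?_⟩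
  · -- boundedness of `P`
    have h1 := hD (a * ξ)
    have h2 := bq2 (a * ξ)
    have h3 := hNpos ξ
    rw [hPe, abs_div, abs_mul, abs_of_pos hθpos, abs_of_pos h3, div_le_iff₀ h3]
    have h4 : 1 / 2 ≤ N ξ := h1
    have h5 : θ * |q (a * ξ)| ≤ 1 * 2 := mul_le_mul hθ1 h2 (abs_nonneg _) (by norm_num)
    linarith
  · -- boundedness of `N`
    have h1 := bq2 (a * ξ)
    have h2 := be1 (a * ξ)
    have h3 := abs_add_le (q (a * ξ)) (e (a * ξ))
    rw [hDm ξ, mm]
    refine (abs_sub _ _).trans ?_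
    rw [abs_one, abs_mul, abs_mul, abs_of_pos hθpos, abs_of_pos (inv_pos.2 hr)]
    have h4 : |q (a * ξ) + e (a * ξ)| ≤ 3 := by linarith
    have h5 : |q (a * ξ) + e (a * ξ)| * r⁻¹ ≤ 3 * r⁻¹ :=
      mul_le_mul_of_nonneg_right h4 (inv_pos.2 hr).le
    have h6 := mul_le_mul_of_nonneg_left h5 hθpos.le
    linarith
  · exact div_nonneg (mul_nonneg hθpos.le (hq0 _)) (hNpos ξ).le
  · -- the system
    intro t x
    simp only [zero_mul, sub_zero]
    have d0 : ∀ c : ℝ, deriv (fun _ : ℝ => c) t = 0 := fun c => deriv_const t c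
    have f1 : deriv (fun y => deriv (fun z => P z) y) x
        = ((v'' x * N x - v x * N'' x) * N x ^ 2
        - (v' x * N x - v x * N' x) * (2 * N x * N' x)) / (N x ^ 2) ^ 2 := by
      have : (fun y => deriv (fun z => P z) y) = fun ξ => (v' ξ * N ξ - v ξ * N' ξ) / N ξ ^ 2 := e1
      rw [this]
      exact (dP' x).deriv
    have f2 : deriv (fun y => P y) x = (v' x * N x - v x * N' x) / N x ^ 2 := (dP x).deriv
    have f3 : deriv (fun y => Real.log (N y)) x = N' x / N x := (dlog x).deriv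
    have f4 : deriv (fun y => deriv (fun z => N z) y) x = N'' x := by
      have : (fun y => deriv (fun z => N z) y) = N' := e2
      rw [this]
      exact (dN' x).deriv
    rw [d0, d0, f1, f2, f3, f4]
    have hn := hNne x
    have hPv : v x = P x * N x := by
      show v x = v x / N x * N x
      field_simp
    constructor
    · rw [eqN, eqv, ← hθdef]
      have hsθ' : s * θ = 2 * s - 1 := by rw [hθdef]; field_simp
      have g1 : 0 - ((-(v x * ((1 - s) * (2 - P x) * (r * (1 - N x) + 1) - 1)) * N x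
          - v x * -(N x * ((1 - s + s * (1 - P x) ^ 2) * (r * (1 - N x) + 1) - 1))) * N x ^ 2
          - (v' x * N x - v x * N' x) * (2 * N x * N' x)) / (N x ^ 2) ^ 2
          - 2 * (N' x / N x) * ((v' x * N x - v x * N' x) / N x ^ 2)
          = (v x / N x) * ((1 - s) * (2 - P x) - (1 - s + s * (1 - P x) ^ 2))
            * (r * (1 - N x) + 1) := by
        field_simp
        ring
      rw [g1]
      have g2 : v x / N x = P x := rfl
      rw [g2]
      linear_combination (r * (1 - N x) + 1) * P x * (1 - P x) * hsθ'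
    · rw [eqN]
      ring
  · -- `P` is not monotone
    intro hmono
    have h1 := limP atTop tendsto_abs_atTop_atTop
    have h2 : ∀ᶠ ξ in atTop, P 0 ≤ P ξ := by
      filter_upwards [eventually_ge_atTop (0:ℝ)] with ξ hξ
      exact hmono hξ
    have h3 := ge_of_tendsto h1 h2
    linarith
  · -- `N` is not antitone
    intro hanti
    have h1 := limN atTop tendsto_abs_atTop_atTop
    have h2 : ∀ᶠ ξ in atTop, N ξ ≤ N 0 := by
      filter_upwards [eventually_ge_atTop (0:ℝ)] with ξ hξ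
      exact hanti hξ
    have h3 := le_of_tendsto h1 h2
    linarith

end Pool.Agent.Results.MP_b6986b_an.NonMonotonePulse
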